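import Pool.Agent.PFC.StmtsB5a

/-!
# Squad PFC, block B5a: row ALV (helper94)
-/

open scoped BigOperators TensorProduct

noncomputable section

namespace Pool.Agent.PFC.B5a.H94

theorem bi_apply {F V B : Type} [Field F] [CommGroup V] [Ring B] [Algebra F B] (β : V →* B)
    (u v : V) (x : B) : bi F β (u, v) x = β u * (x * β v⁻¹) := rfl

theorem alv : AlvStmt := by
  intro homz htrs F V B _ _ _ _ _ _ β lam q Ω _ _ b c hfrm hq
  have hst : ∀ ω : Ω, ∃ R : Subgroup V,
      MulAction.stabilizer (V × V) ω = tw (MonoidHom.id V) R := by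
    intro ω
    obtain ⟨R, -, hR⟩ := hq.st ω
    exact ⟨R, hR⟩
  obtain ⟨Ω₀, hΩ, hsum⟩ := homz V Ω hst
  obtain ⟨al, hal⟩ : ∃ al : B →ₗ[F] B, ∀ x, al x = ∑ ω ∈ Ω₀, c ω x • b ω :=
    ⟨∑ ω ∈ Ω₀, (c ω).smulRight (b ω), fun x => by simp⟩
  refine ⟨al, ?_, ?_⟩
  · intro x
    have h1 : ∀ (ω : Ω) (h : V), c (((1, h) : V × V) • ω) x = c ω (x * β h) := by
      intro ω h
      have h2 := hq.ec ((1, h) : V × V) ω (x * β h)
      rw [bi_apply, map_one, one_mul, mul_assoc, ← map_mul, mul_inv_cancel, map_one,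
        mul_one] at h2
      exact h2
    have h3 : ∀ (ω : Ω) (h : V), b (((1, h) : V × V) • ω) = b ω * β h⁻¹ := by
      intro ω h
      rw [hq.eb, bi_apply, map_one, one_mul]
    calc ∑ h, al (x * β h⁻¹) * β h
        = ∑ h, ∑ ω ∈ Ω₀, c ω (x * β h⁻¹) • (b ω * β h) := by
          refine Finset.sum_congr rfl fun h _ => ?_
          rw [hal, Finset.sum_mul]
          exact Finset.sum_congr rfl fun ω _ => smul_mul_assoc _ _ _
      _ = ∑ ω ∈ Ω₀, ∑ h, c ω (x * β h⁻¹) • (b ω * β h) := Finset.sum_comm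
      _ = ∑ ω ∈ Ω₀, ∑ h : V, c (((1, h) : V × V) • ω) x • b (((1, h) : V × V) • ω) := by
          refine Finset.sum_congr rfl fun ω _ => ?_
          rw [← Equiv.sum_comp (Equiv.inv V)]
          refine Finset.sum_congr rfl fun h _ => ?_
          rw [h1, h3, Equiv.inv_apply, inv_inv]
      _ = ∑ ω, c ω x • b ω := (hsum B fun ω => c ω x • b ω).symm
      _ = q x := hq.sum x
  · intro m d d' hdu
    obtain ⟨s, hs⟩ : ∃ s : Ω → B, ∀ ω, s ω = ∑ k, c ω (d k) • d' k := ⟨_, fun _ => rfl⟩
    have hlam : ∀ ω x, lam (s ω * x) = c ω x := by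
      intro ω x
      have h1 : ∑ k, lam (d' k * x) • c ω (d k) = c ω x := by
        have h2 := congrArg (c ω) (hdu x)
        rw [map_sum] at h2
        rw [← h2]
        exact Finset.sum_congr rfl fun k _ => (map_smul (c ω) _ _).symm
      rw [← h1, hs, Finset.sum_mul, map_sum]
      refine Finset.sum_congr rfl fun k _ => ?_
      rw [smul_mul_assoc, map_smul, smul_eq_mul, smul_eq_mul, mul_comm]
    have hgg : ∀ g : V, β g * β g⁻¹ = 1 := by
      intro g
      rw [← map_mul, mul_inv_cancel, map_one]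
    have hgg' : ∀ g : V, β g⁻¹ * β g = 1 := by
      intro g
      rw [← map_mul, inv_mul_cancel, map_one]
    have hseq : ∀ (g : V) (ω : Ω), s (((g, g) : V × V) • ω) = β g * s ω * β g⁻¹ := by
      intro g ω
      rw [← sub_eq_zero]
      refine hfrm.nd _ fun x => ?_
      rw [sub_mul, map_sub, hlam, sub_eq_zero]
      have h1 : bi F β (g, g) (β g⁻¹ * x * β g) = x := by
        rw [bi_apply]
        calc β g * (β g⁻¹ * x * β g * β g⁻¹) = (β g * β g⁻¹) * x * (β g * β g⁻¹) := by
              simp only [mul_assoc]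
          _ = x := by rw [hgg, one_mul, mul_one]
      have h2 := hq.ec ((g, g) : V × V) ω (β g⁻¹ * x * β g)
      rw [h1] at h2
      rw [h2, ← hlam]
      calc lam (s ω * (β g⁻¹ * x * β g)) = lam (s ω * β g⁻¹ * x * β g) := by
            simp only [mul_assoc]
        _ = lam (β g * (s ω * β g⁻¹ * x)) := hfrm.sym _ _
        _ = lam (β g * s ω * β g⁻¹ * x) := by simp only [mul_assoc]
    have hbeq : ∀ (g : V) (ω : Ω), b (((g, g) : V × V) • ω) = β g * b ω * β g⁻¹ := by
      intro g ω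
      rw [hq.eb, bi_apply, mul_assoc]
    have hW : ∑ k, al (d k) * d' k = ∑ ω ∈ Ω₀, b ω * s ω := by
      have h1 : ∀ k, al (d k) * d' k = ∑ ω ∈ Ω₀, b ω * (c ω (d k) • d' k) := by
        intro k
        rw [hal, Finset.sum_mul]
        exact Finset.sum_congr rfl fun ω _ => by rw [smul_mul_assoc, mul_smul_comm]
      simp only [h1]
      rw [Finset.sum_comm]
      refine Finset.sum_congr rfl fun ω _ => ?_
      rw [hs, Finset.mul_sum]
    rw [hW]
    letI act : MulAction V Ω := MulAction.compHom Ω ((MonoidHom.id V).prod (MonoidHom.id V))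
    have hact : ∀ (g : V) (ω : Ω), g • ω = ((g, g) : V × V) • ω := fun _ _ => rfl
    refine htrs F V B Ω (cj F β) ⊤ (fun ω => b ω * s ω) Ω₀ ?_ ?_ ?_
    · intro ω hω g _
      rw [hact]
      exact hΩ g ω hω
    · intro ω _ hfix
      obtain ⟨R, hR1, hR2⟩ := hq.st ω
      apply hR1
      rw [eq_top_iff]
      intro g _
      have h1 : ((g, g) : V × V) ∈ MulAction.stabilizer (V × V) ω := by
        rw [MulAction.mem_stabilizer_iff, ← hact]
        exact hfix g (Subgroup.mem_top g)
      rw [hR2, tw, Subgroup.mem_map] at h1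
      obtain ⟨r, hr, hr2⟩ := h1
      have h3 : r = g := congrArg Prod.snd hr2
      rw [← h3]
      exact hr
    · intro g _ ω
      show b (g • ω) * s (g • ω) = bi F β (g, g) (b ω * s ω)
      rw [hact, hbeq, hseq, bi_apply]
      calc β g * b ω * β g⁻¹ * (β g * s ω * β g⁻¹) = β g * b ω * (β g⁻¹ * β g) * (s ω * β g⁻¹) := by
            simp only [mul_assoc]
        _ = β g * (b ω * s ω * β g⁻¹) := by
            rw [hgg', mul_one]
            simp only [mul_assoc]

end Pool.Agent.PFC.B5a.H94
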